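import Pool.Agent.W47.TM.Defs

/-!
Project TM (owner helper47), part AUX: auxiliary polynomials which are small at `π`.
-/

set_option autoImplicit false

namespace Pool.Agent.W91.TM

open Finset Polynomial Pool.Agent.W47.TM

theorem lcmUpto_le (n : ℕ) : Nat.lcmUpto n ≤ 219 ^ n := by
  have h1 := Chebyshev.psi_eq_log_lcmUpto n
  have h2 : Chebyshev.psi (n : ℝ) ≤ (Real.log 4 + 4) * n :=
    Chebyshev.psi_le_const_mul_self (Nat.cast_nonneg n)
  have hpos : (0 : ℝ) < (Nat.lcmUpto n : ℝ) := by exact_mod_cast Nat.lcmUpto_pos n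
  have h3 : Real.log (Nat.lcmUpto n) ≤ (Real.log 4 + 4) * n := by
    rw [← h1]; exact h2
  have h4 : (Nat.lcmUpto n : ℝ) ≤ Real.exp ((Real.log 4 + 4) * n) :=
    (Real.log_le_iff_le_exp hpos).1 h3
  have h5 : Real.exp ((Real.log 4 + 4) * n) = (4 * Real.exp 1 ^ 4) ^ n := by
    rw [mul_comm, Real.exp_nat_mul, Real.exp_add, Real.exp_log (by norm_num)]
    congr 2
    rw [← Real.exp_nat_mul]
    norm_num
  have h6 : 4 * Real.exp 1 ^ 4 ≤ 219 := by
    have h7 : Real.exp 1 ≤ 2.7182818286 := Real.exp_one_lt_d9.le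
    have h8 : Real.exp 1 ^ 4 ≤ 2.7182818286 ^ 4 := pow_le_pow_left₀ (Real.exp_pos 1).le h7 4
    norm_num at h8 ⊢
    linarith
  have h9 : (Nat.lcmUpto n : ℝ) ≤ (219 : ℝ) ^ n := by
    rw [h5] at h4
    exact h4.trans (pow_le_pow_left₀ (by positivity) h6 n)
  exact_mod_cast h9

lemma lcm_pow_le {n N : ℕ} (hN : 1 ≤ N) :
    Nat.lcmUpto n ^ (N + 1) ≤ (219 ^ 2) ^ (n * N) := by
  calc Nat.lcmUpto n ^ (N + 1) ≤ (219 ^ n) ^ (N + 1) := Nat.pow_le_pow_left (lcmUpto_le n) _
    _ = 219 ^ (n * (N + 1)) := by rw [← pow_mul]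
    _ ≤ 219 ^ (2 * (n * N)) := Nat.pow_le_pow_right (by norm_num) (by nlinarith)
    _ = (219 ^ 2) ^ (n * N) := by rw [pow_mul]

lemma fac_lb (n N : ℕ) :
    N.factorial * n.factorial ^ N * N ^ (n * N) ≤ ((n + 1) * N).factorial := by
  induction n with
  | zero => simp
  | succ n ih =>
    have h1 : ((n + 1) * N).factorial * ((n + 1) * N + 1) ^ N ≤ ((n + 1) * N + N).factorial :=
      Nat.factorial_mul_pow_le_factorial
    have h2 : ((n + 1) * N) ^ N ≤ ((n + 1) * N + 1) ^ N := Nat.pow_le_pow_left (Nat.le_succ _) _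
    calc N.factorial * (n + 1).factorial ^ N * N ^ ((n + 1) * N)
        = (N.factorial * n.factorial ^ N * N ^ (n * N)) * ((n + 1) * N) ^ N := by
          rw [Nat.factorial_succ, mul_pow, mul_pow, add_mul, pow_add, one_mul]
          ring
      _ ≤ ((n + 1) * N).factorial * ((n + 1) * N) ^ N := Nat.mul_le_mul_right _ ih
      _ ≤ ((n + 1) * N).factorial * ((n + 1) * N + 1) ^ N := Nat.mul_le_mul_left _ h2
      _ ≤ ((n + 1) * N + N).factorial := h1
      _ = ((n + 1 + 1) * N).factorial := by congr 1; ring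

/-- the constant -/
noncomputable def CC : ℝ := 219 ^ 2 * 16 * 81

lemma num_bd {n N : ℕ} (hn : 1 ≤ n) (hN : 1 ≤ N) :
    (Dn n N : ℝ) * (Real.pi ^ ((n + 1) * N) / (((n + 1) * N).factorial : ℝ) *
      Real.exp (n * Real.pi)) ≤ (CC / N) ^ (n * N) := by
  have hNpos : (0 : ℝ) < N := by exact_mod_cast hN
  have hnN : 1 ≤ n * N := Nat.mul_pos hn hN
  have a1 : (N.factorial : ℝ) * (n.factorial : ℝ) ^ N * (N : ℝ) ^ (n * N) ≤
      (((n + 1) * N).factorial : ℝ) := by exact_mod_cast fac_lb n N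
  have a2 : (Nat.lcmUpto n : ℝ) ^ (N + 1) ≤ (219 ^ 2 : ℝ) ^ (n * N) := by
    exact_mod_cast lcm_pow_le (n := n) hN
  have a3 : Real.pi ^ ((n + 1) * N) ≤ (16 : ℝ) ^ (n * N) := by
    calc Real.pi ^ ((n + 1) * N) ≤ (4 : ℝ) ^ ((n + 1) * N) :=
          pow_le_pow_left₀ Real.pi_pos.le Real.pi_le_four _
      _ ≤ (4 : ℝ) ^ (2 * (n * N)) := pow_le_pow_right₀ (by norm_num) (by nlinarith)
      _ = 16 ^ (n * N) := by rw [pow_mul]; norm_num
  have a4 : Real.exp (n * Real.pi) ≤ (81 : ℝ) ^ (n * N) := by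
    have e1 : Real.exp Real.pi ≤ 81 := by
      have e2 : Real.exp Real.pi ≤ Real.exp (4 * 1) := by
        apply Real.exp_le_exp.mpr
        linarith [Real.pi_le_four]
      have e3 : Real.exp (4 * 1) = Real.exp 1 ^ 4 := by
        rw [← Real.exp_nat_mul]; norm_num
      have e4 : Real.exp 1 ≤ 3 := by linarith [Real.exp_one_lt_d9]
      calc Real.exp Real.pi ≤ Real.exp 1 ^ 4 := by rw [← e3]; exact e2
        _ ≤ 3 ^ 4 := pow_le_pow_left₀ (Real.exp_pos 1).le e4 4
        _ = 81 := by norm_num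
    calc Real.exp (n * Real.pi) = Real.exp Real.pi ^ n := Real.exp_nat_mul _ _
      _ ≤ 81 ^ n := pow_le_pow_left₀ (Real.exp_pos _).le e1 _
      _ ≤ 81 ^ (n * N) := pow_le_pow_right₀ (by norm_num) (Nat.le_mul_of_pos_right _ hN)
  have hF : (0 : ℝ) < (N.factorial : ℝ) * (n.factorial : ℝ) ^ N := by positivity
  have hM : (0 : ℝ) < (((n + 1) * N).factorial : ℝ) := by positivity
  have hD : (Dn n N : ℝ) = ((N.factorial : ℝ) * (n.factorial : ℝ) ^ N) *
      (Nat.lcmUpto n : ℝ) ^ (N + 1) := by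
    unfold Dn; push_cast; ring
  have a5 : (Dn n N : ℝ) / (((n + 1) * N).factorial : ℝ) ≤
      (219 ^ 2 : ℝ) ^ (n * N) / (N : ℝ) ^ (n * N) := by
    rw [hD, div_le_div_iff₀ hM (by positivity)]
    calc ((N.factorial : ℝ) * (n.factorial : ℝ) ^ N) * (Nat.lcmUpto n : ℝ) ^ (N + 1) *
          (N : ℝ) ^ (n * N)
        = (Nat.lcmUpto n : ℝ) ^ (N + 1) *
          ((N.factorial : ℝ) * (n.factorial : ℝ) ^ N * (N : ℝ) ^ (n * N)) := by ring
      _ ≤ (219 ^ 2 : ℝ) ^ (n * N) * (((n + 1) * N).factorial : ℝ) :=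
        mul_le_mul a2 a1 (by positivity) (by positivity)
  calc (Dn n N : ℝ) * (Real.pi ^ ((n + 1) * N) / (((n + 1) * N).factorial : ℝ) *
      Real.exp (n * Real.pi))
      = (Dn n N : ℝ) / (((n + 1) * N).factorial : ℝ) * Real.pi ^ ((n + 1) * N) *
        Real.exp (n * Real.pi) := by ring
    _ ≤ (219 ^ 2 : ℝ) ^ (n * N) / (N : ℝ) ^ (n * N) * 16 ^ (n * N) * 81 ^ (n * N) := by
      apply mul_le_mul (mul_le_mul a5 a3 (by positivity) (by positivity)) a4 (by positivity)
        (by positivity)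
    _ = (CC / N) ^ (n * N) := by
      unfold CC
      rw [div_pow, mul_pow, mul_pow]
      ring

/-- a polynomial with given coefficients -/
noncomputable def SS (N : ℕ) (c : ℕ → ℤ) : ℤ[X] := ∑ j ∈ range (N + 1), C (c j) * X ^ j

lemma SS_coeff (N : ℕ) (c : ℕ → ℤ) (i : ℕ) :
    (SS N c).coeff i = if i < N + 1 then c i else 0 := by
  unfold SS
  rw [finsetSum_coeff]
  simp only [coeff_C_mul_X_pow]
  by_cases h : i < N + 1
  · rw [if_pos h, Finset.sum_eq_single i]
    · simp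
    · intro j _ hji
      rw [if_neg (fun h' => hji h'.symm)]
    · intro h'
      exact absurd (Finset.mem_range.mpr h) h'
  · rw [if_neg h]
    apply Finset.sum_eq_zero
    intro j hj
    rw [if_neg]
    intro h'
    rw [h'] at h
    exact h (Finset.mem_range.mp hj)

lemma SS_deg (N : ℕ) (c : ℕ → ℤ) : (SS N c).natDegree ≤ N := by
  unfold SS
  apply natDegree_sum_le_of_forall_le
  intro j hj
  refine (natDegree_C_mul_X_pow_le _ _).trans ?_
  have := Finset.mem_range.mp hj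
  omega

lemma SS_aeval {K : Type} [CommRing K] (N : ℕ) (c : ℕ → ℤ) (x : K) :
    aeval x (SS N c) = ∑ j ∈ range (N + 1), (c j : K) * x ^ j := by
  unfold SS
  rw [map_sum]
  refine Finset.sum_congr rfl fun j _ => ?_
  simp

lemma A_aeval (n N h k : ℕ) (w : ℂ) :
    aeval w (A n N h k) = ∑ j ∈ range (N + 1), (((A n N h k).coeff j : ℚ) : ℂ) * w ^ j := by
  have hd : (A n N h k).natDegree < N + 1 := by
    have : (A n N h k).natDegree ≤ N := by
      unfold A
      apply natDegree_sum_le_of_forall_le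
      intro j hj
      refine (natDegree_C_mul_X_pow_le _ _).trans ?_
      have h1 := Finset.mem_range.mp hj
      unfold ex at h1
      split_ifs at h1 <;> omega
    omega
  rw [aeval_eq_sum_range' hd]
  refine Finset.sum_congr rfl fun j _ => ?_
  rw [Algebra.smul_def, eq_ratCast]

lemma I_pow_cases (j : ℕ) :
    Complex.I ^ j = (if Even j then (-1 : ℂ) ^ (j / 2) else 0) +
      Complex.I * (if Even j then 0 else (-1 : ℂ) ^ (j / 2)) := by
  rcases Nat.even_or_odd' j with ⟨k, rfl | rfl⟩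
  · have h1 : Even (2 * k) := even_two_mul k
    rw [if_pos h1, if_pos h1, pow_mul, Complex.I_sq, Nat.mul_div_cancel_left _ (by norm_num)]
    ring
  · have h1 : ¬ Even (2 * k + 1) := by simp
    have h2 : (2 * k + 1) / 2 = k := by omega
    rw [if_neg h1, if_neg h1, pow_succ, pow_mul, Complex.I_sq, h2]
    ring

theorem aux : S_T8 := by
  intro h1 h2 h3
  refine ⟨CC, by unfold CC; norm_num, ?_⟩
  intro n N hn hN P hP hP0
  obtain ⟨α, hα⟩ : ∃ α : ℂ, aeval α P = 0 := by
    apply IsAlgClosed.exists_aeval_eq_zero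
    intro h0
    have := natDegree_eq_zero_iff_degree_le_zero.mpr h0.le
    omega
  have hα0 : α ≠ 0 := by
    intro h0
    rw [h0] at hα
    rw [← coeff_zero_eq_aeval_zero'] at hα
    apply hP0
    have : ((P.coeff 0 : ℤ) : ℂ) = 0 := by simpa using hα
    exact_mod_cast this
  obtain ⟨h, hh, hne⟩ := h2 n N hN (Complex.I * α) (mul_ne_zero Complex.I_ne_zero hα0)
    (fun k => (-1) ^ k) ⟨0, Nat.zero_le _, by simp⟩
  set M0 : ℕ := N.factorial * 2 ^ (n * N) * 2 ^ ((n + 1) * N) * Nat.lcmUpto n ^ (N + 1) with hM0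
  have hI : ∀ k j : ℕ, ∃ z : ℤ, k ≤ n → ((Dn n N : ℚ) * (A n N h k).coeff j = z ∧
      |z| ≤ (M0 : ℤ)) := by
    intro k j
    by_cases hk : k ≤ n
    · obtain ⟨z, hz⟩ := h3 n N h k hN hh hk j
      exact ⟨z, fun _ => hz⟩
    · exact ⟨0, fun h => absurd h hk⟩
  choose z hz using hI
  set b : ℕ → ℤ := fun j => ∑ k ∈ range (n + 1), (-1) ^ k * z k j with hb
  have hbb : ∀ j, |b j| ≤ (n + 1) * (M0 : ℤ) := by
    intro j
    calc |b j| ≤ ∑ k ∈ range (n + 1), |(-1) ^ k * z k j| := Finset.abs_sum_le_sum_abs _ _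
      _ ≤ ∑ _k ∈ range (n + 1), (M0 : ℤ) := by
        refine Finset.sum_le_sum fun k hk => ?_
        have hk' : k ≤ n := Nat.lt_succ_iff.mp (Finset.mem_range.mp hk)
        rw [abs_mul, abs_pow, abs_neg, abs_one, one_pow, one_mul]
        exact (hz k j hk').2
      _ = (n + 1) * (M0 : ℤ) := by simp
  set c1 : ℕ → ℤ := fun j => if Even j then (-1) ^ (j / 2) * b j else 0 with hc1
  set c2 : ℕ → ℤ := fun j => if Even j then 0 else (-1) ^ (j / 2) * b j with hc2
  -- the identity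
  have hid : ∀ x : ℂ, (Dn n N : ℂ) * ∑ k ∈ range (n + 1),
      aeval (Complex.I * x) (A n N h k) * (-1) ^ k =
      aeval x (SS N c1) + Complex.I * aeval x (SS N c2) := by
    intro x
    rw [SS_aeval, SS_aeval, Finset.mul_sum, Finset.mul_sum, ← Finset.sum_add_distrib]
    have e1 : ∀ k ∈ range (n + 1), (Dn n N : ℂ) * (aeval (Complex.I * x) (A n N h k) * (-1) ^ k) =
        ∑ j ∈ range (N + 1), ((-1) ^ k * (z k j : ℂ)) * (Complex.I * x) ^ j := by
      intro k hk
      have hk' : k ≤ n := Nat.lt_succ_iff.mp (Finset.mem_range.mp hk)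
      rw [A_aeval, Finset.sum_mul, Finset.mul_sum]
      refine Finset.sum_congr rfl fun j _ => ?_
      have e2 : (Dn n N : ℂ) * (((A n N h k).coeff j : ℚ) : ℂ) = (z k j : ℂ) := by
        have := (hz k j hk').1
        exact_mod_cast congrArg (fun q : ℚ => (q : ℂ)) this
      rw [← e2]
      ring
    rw [Finset.sum_congr rfl e1, Finset.sum_comm]
    refine Finset.sum_congr rfl fun j _ => ?_
    rw [← Finset.sum_mul]
    have e3 : ∑ k ∈ range (n + 1), (-1) ^ k * (z k j : ℂ) = (b j : ℂ) := by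
      simp only [hb]
      push_cast
      rfl
    rw [e3, mul_pow, I_pow_cases]
    simp only [hc1, hc2]
    split_ifs <;> push_cast <;> ring
  -- the value at `π`
  have hpi : ‖aeval (Real.pi : ℂ) (SS N c1) + Complex.I * aeval (Real.pi : ℂ) (SS N c2)‖ ≤
      (CC / N) ^ (n * N) := by
    rw [← hid]
    have e1 : ∑ k ∈ range (n + 1), aeval (Complex.I * (Real.pi : ℂ)) (A n N h k) * (-1) ^ k =
        ∑ k ∈ range (n + 1), aeval (Complex.I * (Real.pi : ℂ)) (A n N h k) *
          Complex.exp ((k : ℂ) * (Complex.I * (Real.pi : ℂ))) := by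
      refine Finset.sum_congr rfl fun k _ => ?_
      rw [Complex.exp_nat_mul, mul_comm Complex.I, Complex.exp_pi_mul_I]
    rw [e1, norm_mul, Complex.norm_natCast]
    have e2 := h1 n N h hN hh (Complex.I * (Real.pi : ℂ))
    have e3 : ‖Complex.I * (Real.pi : ℂ)‖ = Real.pi := by
      rw [norm_mul, Complex.norm_I, one_mul, Complex.norm_real, Real.norm_eq_abs,
        abs_of_pos Real.pi_pos]
    rw [e3] at e2
    exact (mul_le_mul_of_nonneg_left e2 (Nat.cast_nonneg _)).trans (num_bd hn hN)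
  have hre : ∀ c : ℕ → ℤ, aeval (Real.pi : ℂ) (SS N c) = ((aeval Real.pi (SS N c) : ℝ) : ℂ) := by
    intro c
    rw [SS_aeval, SS_aeval]
    push_cast
    rfl
  rw [hre, hre] at hpi
  have r1 : |aeval Real.pi (SS N c1)| ≤ (CC / N) ^ (n * N) := by
    refine le_trans ?_ hpi
    have := Complex.abs_re_le_norm (((aeval Real.pi (SS N c1) : ℝ) : ℂ) +
      Complex.I * ((aeval Real.pi (SS N c2) : ℝ) : ℂ))
    simpa using this
  have r2 : |aeval Real.pi (SS N c2)| ≤ (CC / N) ^ (n * N) := by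
    refine le_trans ?_ hpi
    have := Complex.abs_im_le_norm (((aeval Real.pi (SS N c1) : ℝ) : ℂ) +
      Complex.I * ((aeval Real.pi (SS N c2) : ℝ) : ℂ))
    simpa using this
  -- coefficient bound
  have hcoef : ∀ c : ℕ → ℤ, (∀ j, |c j| ≤ |b j|) → ∀ i, |((SS N c).coeff i : ℝ)| ≤
      (N.factorial : ℝ) * CC ^ (n * N) := by
    intro c hc i
    have e1 : |(SS N c).coeff i| ≤ (n + 1) * (M0 : ℤ) := by
      rw [SS_coeff]
      split_ifs
      · exact (hc i).trans (hbb i)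
      · rw [abs_zero]; positivity
    have e2 : |((SS N c).coeff i : ℝ)| ≤ (n + 1) * (M0 : ℝ) := by exact_mod_cast e1
    refine e2.trans ?_
    rw [hM0]
    push_cast
    have f1 : ((n : ℝ) + 1) ≤ 2 ^ (n * N) := by
      have : n + 1 ≤ 2 ^ n := Nat.lt_two_pow_self
      have h4 : (2 : ℕ) ^ n ≤ 2 ^ (n * N) :=
        Nat.pow_le_pow_right (by norm_num) (Nat.le_mul_of_pos_right _ hN)
      exact_mod_cast this.trans h4
    have f2 : (2 : ℝ) ^ ((n + 1) * N) ≤ 4 ^ (n * N) := by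
      calc (2 : ℝ) ^ ((n + 1) * N) ≤ 2 ^ (2 * (n * N)) :=
            pow_le_pow_right₀ (by norm_num) (by nlinarith)
        _ = 4 ^ (n * N) := by rw [pow_mul]; norm_num
    have f3 : (Nat.lcmUpto n : ℝ) ^ (N + 1) ≤ (219 ^ 2 : ℝ) ^ (n * N) := by
      exact_mod_cast lcm_pow_le (n := n) hN
    calc ((n : ℝ) + 1) * ((N.factorial : ℝ) * 2 ^ (n * N) * 2 ^ ((n + 1) * N) *
          (Nat.lcmUpto n : ℝ) ^ (N + 1))
        ≤ 2 ^ (n * N) * ((N.factorial : ℝ) * 2 ^ (n * N) * 4 ^ (n * N) *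
          (219 ^ 2 : ℝ) ^ (n * N)) := by
          apply mul_le_mul f1 _ (by positivity) (by positivity)
          apply mul_le_mul _ f3 (by positivity) (by positivity)
          exact mul_le_mul_of_nonneg_left f2 (by positivity)
      _ = (N.factorial : ℝ) * (2 * 2 * 4 * 219 ^ 2) ^ (n * N) := by
          rw [mul_pow, mul_pow, mul_pow]; ring
      _ ≤ (N.factorial : ℝ) * CC ^ (n * N) := by
          apply mul_le_mul_of_nonneg_left _ (by positivity)
          apply pow_le_pow_left₀ (by norm_num)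
          unfold CC; norm_num
  have k1 : ∀ j, |c1 j| ≤ |b j| := by
    intro j
    simp only [hc1]
    split_ifs
    · rw [abs_mul, abs_pow, abs_neg, abs_one, one_pow, one_mul]
    · rw [abs_zero]; exact abs_nonneg _
  have k2 : ∀ j, |c2 j| ≤ |b j| := by
    intro j
    simp only [hc2]
    split_ifs
    · rw [abs_zero]; exact abs_nonneg _
    · rw [abs_mul, abs_pow, abs_neg, abs_one, one_pow, one_mul]
  have hDn : (Dn n N : ℂ) ≠ 0 := by
    have : Dn n N ≠ 0 := by
      unfold Dn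
      have := Nat.lcmUpto_ne_zero n
      positivity
    exact_mod_cast this
  by_cases hd : P ∣ SS N c1
  · refine ⟨SS N c2, ?_, SS_deg _ _, hcoef c2 k2, r2⟩
    intro hd2
    obtain ⟨u, hu⟩ := hd
    obtain ⟨v, hv⟩ := hd2
    have g1 : aeval α (SS N c1) = 0 := by rw [hu, map_mul, hα, zero_mul]
    have g2 : aeval α (SS N c2) = 0 := by rw [hv, map_mul, hα, zero_mul]
    have g3 := hid α
    rw [g1, g2, mul_zero, add_zero] at g3
    exact hne ((mul_eq_zero.mp g3).resolve_left hDn)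
  · exact ⟨SS N c1, hd, SS_deg _ _, hcoef c1 k1, r1⟩

end Pool.Agent.W91.TM
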